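import Mathlib

set_option autoImplicit false

/-!
# Explicit approximation forms for `a + b + c = 0`

The identity `a ^ (2N+1) W(a,b) + b ^ (2N+1) W(b,c) + c ^ (2N+1) W(c,a) = 0` and the linear
independence of two consecutive instances.
-/

namespace Pool.Agent.TH876.Pade

open Polynomial Finset

/-- the coefficients of the forms -/
def cf (N j : ℕ) : ℕ := (N + j).choose j * (3 * N + 1).choose (N - j)

/-- the form of degree `N` -/
def W {R : Type*} [CommRing R] (N : ℕ) (x y : R) : R :=
  ∑ j ∈ range (N + 1), (cf N j : R) * x ^ j * y ^ (N - j)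

theorem W_map {R S : Type*} [CommRing R] [CommRing S] (f : R →+* S) (N : ℕ) (x y : R) :
    f (W N x y) = W N (f x) (f y) := by
  unfold W
  rw [map_sum]
  refine Finset.sum_congr rfl fun j _ => ?_
  rw [map_mul, map_mul, map_natCast, map_pow, map_pow]

theorem sum_cf_le (N : ℕ) : ∑ j ∈ range (N + 1), cf N j ≤ 2 ^ (5 * N + 1) := by
  have h1 : ∀ j ∈ range (N + 1), cf N j ≤ 2 ^ (2 * N) * (3 * N + 1).choose (N - j) := by
    intro j hj
    unfold cf
    refine Nat.mul_le_mul_right _ ?_
    calc (N + j).choose j ≤ 2 ^ (N + j) := Nat.choose_le_two_pow _ _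
      _ ≤ 2 ^ (2 * N) := Nat.pow_le_pow_right (by norm_num) (by
          have := Finset.mem_range.1 hj
          omega)
  calc ∑ j ∈ range (N + 1), cf N j
      ≤ ∑ j ∈ range (N + 1), 2 ^ (2 * N) * (3 * N + 1).choose (N - j) := Finset.sum_le_sum h1
    _ = 2 ^ (2 * N) * ∑ j ∈ range (N + 1), (3 * N + 1).choose j := by
        rw [← Finset.mul_sum]
        congr 1
        rw [← Finset.sum_range_reflect]
        refine Finset.sum_congr rfl fun j hj => ?_
        congr 1
        have := Finset.mem_range.1 hj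
        omega
    _ ≤ 2 ^ (2 * N) * ∑ j ∈ range (3 * N + 1 + 1), (3 * N + 1).choose j := by
        refine Nat.mul_le_mul_left _ (Finset.sum_le_sum_of_subset ?_)
        intro j hj
        rw [Finset.mem_range] at *
        omega
    _ = 2 ^ (2 * N) * 2 ^ (3 * N + 1) := by rw [Nat.sum_range_choose]
    _ = 2 ^ (5 * N + 1) := by rw [← pow_add]; congr 1; ring

section Field

variable {K : Type*} [Field K] [CharZero K]

theorem prim_const {F G : K[X]} (h : derivative F = derivative G) (s t : K) :
    F.eval s - F.eval t = G.eval s - G.eval t := by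
  have h1 : derivative (F - G) = 0 := by rw [derivative_sub, h, sub_self]
  have h2 := Polynomial.derivative_eq_zero.1 h1
  have h3 := eq_C_of_natDegree_eq_zero h2
  have h4 : (F - G).eval s = (F - G).eval t := by rw [h3, eval_C, eval_C]
  rw [eval_sub, eval_sub] at h4
  linear_combination h4

theorem beta (a : K) (N : ℕ) : ∀ p : ℕ, ∃ Ψ : K[X], derivative Ψ = X ^ p * (X - C a) ^ N ∧
    Ψ.eval 0 = 0 ∧ Ψ.eval a = (-1) ^ N * ((p.factorial : K) * N.factorial) /
      ((p + N + 1).factorial : K) * a ^ (p + N + 1) := by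
  induction N with
  | zero =>
    intro p
    have hp : ((p : K) + 1) ≠ 0 := by exact_mod_cast Nat.succ_ne_zero p
    refine ⟨C (1 / ((p : K) + 1)) * X ^ (p + 1), ?_, ?_, ?_⟩
    · rw [derivative_C_mul, derivative_X_pow, pow_zero, mul_one, ← mul_assoc, ← C_mul]
      push_cast
      rw [one_div, inv_mul_cancel₀ hp, C_1, one_mul]
    · simp
    · rw [eval_mul, eval_C, eval_pow, eval_X]
      have h1 : ((p + 0 + 1).factorial : K) = (p + 1) * p.factorial := by
        rw [add_zero, Nat.factorial_succ]; push_cast; ring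
      rw [h1]
      have h2 : (p.factorial : K) ≠ 0 := by exact_mod_cast Nat.factorial_ne_zero p
      simp only [pow_zero, Nat.factorial_zero, Nat.cast_one, mul_one, one_mul, add_zero]
      field_simp
  | succ N ih =>
    intro p
    obtain ⟨Ψ, h1, h2, h3⟩ := ih (p + 1)
    have hp : ((p : K) + 1) ≠ 0 := by exact_mod_cast Nat.succ_ne_zero p
    refine ⟨C (1 / ((p : K) + 1)) * (X ^ (p + 1) * (X - C a) ^ (N + 1) - C ((N : K) + 1) * Ψ),
      ?_, ?_, ?_⟩
    · rw [derivative_C_mul, derivative_sub, derivative_C_mul, derivative_mul, derivative_X_pow,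
        derivative_pow, h1, derivative_sub, derivative_X, derivative_C, sub_zero, mul_one]
      simp only [Nat.add_sub_cancel, Nat.cast_add, Nat.cast_one]
      have h5 : C ((p : K) + 1) * C (1 / ((p : K) + 1)) = (1 : K[X]) := by
        rw [← C_mul, mul_one_div_cancel hp, C_1]
      linear_combination (X ^ p * (X - C a) ^ (N + 1)) * h5
    · rw [eval_mul, eval_sub, eval_mul, eval_mul, h2, eval_pow, eval_X, zero_pow (Nat.succ_ne_zero p)]
      ring
    · rw [eval_mul, eval_sub, eval_mul, eval_mul, h3, eval_C, eval_C, eval_pow, eval_pow, eval_sub,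
        eval_X, eval_C, sub_self, zero_pow (Nat.succ_ne_zero N)]
      have e1 : p + 1 + N + 1 = p + (N + 1) + 1 := by ring
      rw [e1]
      have h6 : ((p + 1).factorial : K) = (p + 1) * p.factorial := by
        rw [Nat.factorial_succ]; push_cast; ring
      have h7 : ((N + 1).factorial : K) = (N + 1) * N.factorial := by
        rw [Nat.factorial_succ]; push_cast; ring
      rw [h6, h7]
      have h8 : ((p + (N + 1) + 1).factorial : K) ≠ 0 := by
        exact_mod_cast Nat.factorial_ne_zero _
      field_simp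
      ring

theorem coef_eq (N j : ℕ) (hj : j ≤ N) :
    (N.choose j : K) * (((N + j).factorial : K) * N.factorial / ((N + j + N + 1).factorial : K)) =
      (N.factorial : K) ^ 3 / ((3 * N + 1).factorial : K) * cf N j := by
  obtain ⟨i, rfl⟩ := Nat.exists_eq_add_of_le hj
  unfold cf
  rw [Nat.cast_mul]
  have h1 : ((j + i).choose j : K) = (j + i).factorial / (j.factorial * i.factorial) :=
    Nat.cast_add_choose K
  have h2 : ((j + i + j).choose j : K) =
      (j + i + j).factorial / (j.factorial * (j + i).factorial) := by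
    rw [Nat.cast_choose K (by omega), Nat.add_sub_cancel]
  have h3 : ((3 * (j + i) + 1).choose (j + i - j) : K) =
      (3 * (j + i) + 1).factorial / (i.factorial * (j + i + j + (j + i) + 1).factorial) := by
    rw [Nat.cast_choose K (by omega)]
    congr 3
    · congr 1; omega
    · congr 1; omega
  rw [h1, h2, h3]
  have f1 : (j.factorial : K) ≠ 0 := by exact_mod_cast Nat.factorial_ne_zero _
  have f2 : (i.factorial : K) ≠ 0 := by exact_mod_cast Nat.factorial_ne_zero _
  have f3 : ((j + i).factorial : K) ≠ 0 := by exact_mod_cast Nat.factorial_ne_zero _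
  have f4 : ((3 * (j + i) + 1).factorial : K) ≠ 0 := by exact_mod_cast Nat.factorial_ne_zero _
  have f5 : ((j + i + j + (j + i) + 1).factorial : K) ≠ 0 := by
    exact_mod_cast Nat.factorial_ne_zero _
  field_simp

theorem seg (a b : K) (N : ℕ) : ∃ Ψ : K[X],
    derivative Ψ = X ^ N * (X - C a) ^ N * (X + C b) ^ N ∧ Ψ.eval 0 = 0 ∧
    Ψ.eval a = (-1) ^ N * ((N.factorial : K) ^ 3 / ((3 * N + 1).factorial : K)) *
      (a ^ (2 * N + 1) * W N a b) := by
  choose Ψ h1 h2 h3 using beta a N
  refine ⟨∑ j ∈ range (N + 1), C (b ^ (N - j) * (N.choose j : K)) * Ψ (N + j), ?_, ?_, ?_⟩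
  · rw [derivative_sum]
    rw [add_pow (X : K[X]) (C b) N, Finset.mul_sum]
    refine Finset.sum_congr rfl fun j _ => ?_
    rw [derivative_C_mul, h1, C_mul, C_pow, pow_add]
    have : (C ((N.choose j : ℕ) : K) : K[X]) = ((N.choose j : ℕ) : K[X]) := by simp
    rw [this]
    ring
  · rw [eval_finsetSum]
    refine Finset.sum_eq_zero fun j _ => ?_
    rw [eval_mul, h2, mul_zero]
  · rw [eval_finsetSum]
    unfold W
    rw [Finset.mul_sum, Finset.mul_sum]
    refine Finset.sum_congr rfl fun j hj => ?_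
    have hj' : j ≤ N := Nat.lt_succ_iff.1 (Finset.mem_range.1 hj)
    rw [eval_mul, eval_C, h3]
    have h4 := coef_eq (K := K) N j hj'
    have h5 : a ^ (N + j + N + 1) = a ^ (2 * N + 1) * a ^ j := by rw [← pow_add]; congr 1; ring
    rw [h5]
    linear_combination (b ^ (N - j) * (-1) ^ N * a ^ (2 * N + 1) * a ^ j) * h4

theorem ident_field {a b c : K} (h : a + b + c = 0) (N : ℕ) :
    a ^ (2 * N + 1) * W N a b + b ^ (2 * N + 1) * W N b c + c ^ (2 * N + 1) * W N c a = 0 := by
  obtain ⟨Ψ1, d1, z1, e1⟩ := seg a b N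
  obtain ⟨Ψ2, d2, z2, e2⟩ := seg c a N
  obtain ⟨Ψ3, d3, z3, e3⟩ := seg b c N
  have hc : c = -a - b := by linear_combination h
  have D2 : derivative (Ψ2.comp (X - C a)) = derivative Ψ1 := by
    rw [derivative_comp, d2, d1, derivative_sub, derivative_X, derivative_C, sub_zero, one_mul]
    simp only [mul_comp, pow_comp, sub_comp, add_comp, X_comp, C_comp]
    rw [hc, C_sub, C_neg]
    ring
  have D3 : derivative (Ψ3.comp (X + C b)) = derivative Ψ1 := by
    rw [derivative_comp, d3, d1, derivative_add, derivative_X, derivative_C, add_zero, one_mul]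
    simp only [mul_comp, pow_comp, sub_comp, add_comp, X_comp, C_comp]
    rw [hc, C_sub, C_neg]
    ring
  have q2 := prim_const D2 (-b) a
  have q3 := prim_const D3 0 (-b)
  simp only [eval_comp, eval_sub, eval_X, eval_C, sub_self, z2] at q2
  simp only [eval_comp, eval_add, eval_X, eval_C, neg_add_cancel, z3, zero_add] at q3
  have hcb : -b - a = c := by rw [hc]; ring
  rw [hcb] at q2
  have q4 : Ψ1.eval a + Ψ2.eval c + Ψ3.eval b = 0 := by
    linear_combination q2 + q3 + z1
  rw [e1, e2, e3] at q4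
  have hk : ((-1 : K) ^ N * ((N.factorial : K) ^ 3 / ((3 * N + 1).factorial : K))) ≠ 0 := by
    refine mul_ne_zero (pow_ne_zero _ (by norm_num)) (div_ne_zero (pow_ne_zero _ ?_) ?_)
    · exact_mod_cast Nat.factorial_ne_zero _
    · exact_mod_cast Nat.factorial_ne_zero _
  refine mul_left_cancel₀ hk ?_
  linear_combination q4

end Field

/-- the identity in a domain of characteristic zero -/
theorem ident {R : Type*} [CommRing R] [IsDomain R] [CharZero R] {a b c : R} (h : a + b + c = 0)
    (N : ℕ) :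
    a ^ (2 * N + 1) * W N a b + b ^ (2 * N + 1) * W N b c + c ^ (2 * N + 1) * W N c a = 0 := by
  have hinj : Function.Injective (algebraMap R (FractionRing R)) :=
    IsFractionRing.injective R (FractionRing R)
  have : CharZero (FractionRing R) := charZero_of_injective_algebraMap hinj
  apply hinj
  rw [map_zero]
  have h1 : algebraMap R (FractionRing R) a + algebraMap R (FractionRing R) b +
      algebraMap R (FractionRing R) c = 0 := by
    rw [← map_add, ← map_add, h, map_zero]
  have h2 := ident_field h1 N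
  rw [← W_map, ← W_map, ← W_map] at h2
  simpa only [map_add, map_mul, map_pow] using h2

theorem W_zero_left {R : Type*} [CommRing R] (N : ℕ) (y : R) : W N 0 y = (cf N 0 : R) * y ^ N := by
  unfold W
  rw [Finset.sum_range_succ']
  simp

theorem W_zero_right {R : Type*} [CommRing R] (N : ℕ) (x : R) : W N x 0 = (cf N N : R) * x ^ N := by
  unfold W
  rw [Finset.sum_range_succ, Nat.sub_self, pow_zero, mul_one]
  have : ∑ j ∈ range N, (cf N j : R) * x ^ j * (0 : R) ^ (N - j) = 0 := by
    refine Finset.sum_eq_zero fun j hj => ?_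
    have hj' := Finset.mem_range.1 hj
    rw [zero_pow (by omega), mul_zero]
  rw [this, zero_add]

theorem cf_zero_pos (N : ℕ) : 0 < cf N 0 := by
  unfold cf
  exact Nat.mul_pos (Nat.choose_pos (by omega)) (Nat.choose_pos (by omega))

theorem cf_self_pos (N : ℕ) : 0 < cf N N := by
  unfold cf
  exact Nat.mul_pos (Nat.choose_pos (by omega)) (Nat.choose_pos (by omega))

theorem W_one_neg_one {R : Type*} [CommRing R] [IsDomain R] [CharZero R] (N : ℕ) :
    W N (1 : R) (-1) = (cf N N : R) * (-1) ^ N := by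
  have h1 := ident (R := R) (a := 1) (b := -1) (c := 0) (by ring) N
  have h2 : (-1 : R) ^ (2 * N + 1) = -1 := by
    rw [pow_succ, pow_mul, neg_one_sq, one_pow, one_mul]
  rw [W_zero_right, zero_pow (Nat.succ_ne_zero _), h2, one_pow, zero_mul] at h1
  linear_combination h1

section Poly

variable {K : Type*} [Field K] [CharZero K]

omit [CharZero K] in
theorem W_natDegree_le {N : ℕ} {p q : K[X]} (hp : p.natDegree ≤ 1) (hq : q.natDegree ≤ 1) :
    (W N p q).natDegree ≤ N := by
  unfold W
  refine natDegree_sum_le_of_forall_le _ _ fun j hj => ?_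
  have hj' : j ≤ N := Nat.lt_succ_iff.1 (Finset.mem_range.1 hj)
  have h1 : (p ^ j).natDegree ≤ j := natDegree_pow_le.trans (by nlinarith)
  have h2 : (q ^ (N - j)).natDegree ≤ N - j := natDegree_pow_le.trans (by nlinarith)
  have h3 : (((cf N j : ℕ) : K[X]) * p ^ j).natDegree ≤ j := by
    refine natDegree_mul_le.trans ?_
    rw [natDegree_natCast, zero_add]
    exact h1
  refine natDegree_mul_le.trans ?_
  omega

omit [CharZero K] in
theorem coeff_A (N : ℕ) : (W N (X : K[X]) 1).coeff N = (cf N N : K) := by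
  unfold W
  rw [finsetSum_coeff, Finset.sum_range_succ]
  have h0 : ∑ j ∈ range N, (((cf N j : ℕ) : K[X]) * X ^ j * 1 ^ (N - j)).coeff N = 0 := by
    refine Finset.sum_eq_zero fun j hj => ?_
    have hj' := Finset.mem_range.1 hj
    rw [one_pow, mul_one, coeff_natCast_mul, coeff_X_pow, if_neg (by omega), mul_zero]
  rw [h0, zero_add, one_pow, mul_one, coeff_natCast_mul, coeff_X_pow, if_pos rfl, mul_one]

omit [CharZero K] in
theorem coeff_B (N : ℕ) : (W N (1 : K[X]) (-X - 1)).coeff N = (cf N 0 : K) * (-1) ^ N := by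
  unfold W
  have hd : (-X - 1 : K[X]).natDegree ≤ 1 := by compute_degree
  rw [finsetSum_coeff, Finset.sum_range_succ']
  have h0 : ∑ j ∈ range N, (((cf N (j + 1) : ℕ) : K[X]) * 1 ^ (j + 1) *
      (-X - 1) ^ (N - (j + 1))).coeff N = 0 := by
    refine Finset.sum_eq_zero fun j hj => ?_
    have hj' := Finset.mem_range.1 hj
    rw [one_pow, mul_one, coeff_natCast_mul, coeff_eq_zero_of_natDegree_lt, mul_zero]
    refine lt_of_le_of_lt natDegree_pow_le ?_
    have : (N - (j + 1)) * (-X - 1 : K[X]).natDegree ≤ (N - (j + 1)) * 1 :=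
      Nat.mul_le_mul_left _ hd
    omega
  rw [h0, zero_add, pow_zero, mul_one, coeff_natCast_mul, Nat.sub_zero]
  congr 1
  have h1 := coeff_pow_of_natDegree_le (m := N) hd
  rw [mul_one] at h1
  rw [h1]
  congr 1
  simp [coeff_one]

/-- the determinant of two consecutive instances -/
theorem det_poly (N : ℕ) : ∃ q : K, q ≠ 0 ∧
    W N (X : K[X]) 1 * W (N + 1) 1 (-X - 1) - X ^ 2 * W N 1 (-X - 1) * W (N + 1) X 1 =
      (-X - 1) ^ (2 * N + 1) * (C q * (1 + X + X ^ 2)) := by
  set c : K[X] := -X - 1 with hc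
  have hd : c.natDegree ≤ 1 := by rw [hc]; compute_degree
  have hc1 : c.natDegree = 1 := by
    have : c = -(X + C 1) := by rw [hc, C_1]; ring
    rw [this, natDegree_neg, natDegree_X_add_C]
  have hc0 : c ≠ 0 := by
    intro h
    rw [h, natDegree_zero] at hc1
    exact absurd hc1 (by norm_num)
  set A := W N (X : K[X]) 1 with hA
  set B := W N (1 : K[X]) c with hB
  set D := W N c (X : K[X]) with hD
  set A' := W (N + 1) (X : K[X]) 1 with hA'
  set B' := W (N + 1) (1 : K[X]) c with hB'
  set D' := W (N + 1) c (X : K[X]) with hD'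
  have hs : (X : K[X]) + 1 + c = 0 := by rw [hc]; ring
  have I1 := ident hs N
  have I2 := ident hs (N + 1)
  rw [← hA, ← hB, ← hD, one_pow, one_mul] at I1
  rw [← hA', ← hB', ← hD', one_pow, one_mul] at I2
  have e1 : 2 * (N + 1) + 1 = 2 * N + 1 + 2 := by ring
  rw [e1] at I2
  set E := A * B' - X ^ 2 * B * A' with hE
  set F := c ^ 2 * B * D' - D * B' with hF
  have hEF : X ^ (2 * N + 1) * E = c ^ (2 * N + 1) * F := by
    rw [hE, hF]
    linear_combination B' * I1 - B * I2
  have hcop : IsCoprime (c ^ (2 * N + 1)) ((X : K[X]) ^ (2 * N + 1)) := by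
    refine IsCoprime.pow ⟨-1, -1, ?_⟩
    rw [hc]; ring
  obtain ⟨Q, hQ⟩ : c ^ (2 * N + 1) ∣ E := by
    refine hcop.dvd_of_dvd_mul_left ?_
    exact ⟨F, hEF⟩
  have hXQ : X ^ (2 * N + 1) * Q = F := by
    refine mul_left_cancel₀ (pow_ne_zero (2 * N + 1) hc0) ?_
    rw [← hEF, hQ]
    ring
  have dX : (X : K[X]).natDegree ≤ 1 := natDegree_X_le
  have d1 : (1 : K[X]).natDegree ≤ 1 := by rw [natDegree_one]; exact Nat.zero_le _
  have dA : A.natDegree ≤ N := W_natDegree_le dX d1
  have dB : B.natDegree ≤ N := W_natDegree_le d1 hd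
  have dA' : A'.natDegree ≤ N + 1 := W_natDegree_le dX d1
  have dB' : B'.natDegree ≤ N + 1 := W_natDegree_le d1 hd
  have dE : E.natDegree ≤ 2 * N + 3 := by
    refine (natDegree_sub_le _ _).trans (max_le ?_ ?_)
    · refine natDegree_mul_le.trans ?_
      omega
    · refine natDegree_mul_le.trans ?_
      have : (X ^ 2 * B).natDegree ≤ 2 + N := by
        refine natDegree_mul_le.trans ?_
        rw [natDegree_X_pow]
        omega
      omega
  have hcp : (c ^ (2 * N + 1)).natDegree = 2 * N + 1 := by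
    rw [natDegree_pow, hc1, mul_one]
  have dQ : Q.natDegree ≤ 2 := by
    by_cases hQ0 : Q = 0
    · rw [hQ0, natDegree_zero]; norm_num
    · rw [hQ, natDegree_mul (pow_ne_zero _ hc0) hQ0, hcp] at dE
      omega
  set q : K := (cf N 0 : K) * (cf (N + 1) (N + 1) : K) * (-1) ^ N with hq
  have hq0 : q ≠ 0 := by
    rw [hq]
    refine mul_ne_zero (mul_ne_zero ?_ ?_) (pow_ne_zero _ (by norm_num))
    · exact_mod_cast (cf_zero_pos N).ne'
    · exact_mod_cast (cf_self_pos (N + 1)).ne'
  have hsq : ((-1 : K) ^ N) * (-1) ^ N = 1 := by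
    rw [← mul_pow]; norm_num
  have hodd : (-1 : K) ^ (2 * N + 1) = -1 := by
    rw [pow_succ, pow_mul, neg_one_sq, one_pow, one_mul]
  -- value at zero
  have v0 : Q.eval 0 = q := by
    have h1 : E.eval 0 = (c ^ (2 * N + 1) * Q).eval 0 := by rw [hQ]
    have hc00 : c.eval 0 = -1 := by rw [hc]; simp
    rw [eval_mul, eval_pow, hc00, hodd, hE] at h1
    have hA0 : A.eval 0 = (cf N 0 : K) := by
      have h2 := W_map (evalRingHom (0 : K)) N X 1
      rw [map_one] at h2
      change A.eval 0 = W N ((X : K[X]).eval 0) 1 at h2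
      rw [eval_X, W_zero_left, one_pow, mul_one] at h2
      exact h2
    have hB0 : B'.eval 0 = (cf (N + 1) (N + 1) : K) * (-1) ^ (N + 1) := by
      have h2 := W_map (evalRingHom (0 : K)) (N + 1) 1 c
      rw [map_one] at h2
      change B'.eval 0 = W (N + 1) 1 (c.eval 0) at h2
      rw [hc00, W_one_neg_one] at h2
      exact h2
    have h3 : (A * B' - X ^ 2 * B * A').eval 0 = A.eval 0 * B'.eval 0 := by
      simp
    rw [h3, hA0, hB0] at h1
    rw [hq]
    rw [pow_succ] at h1
    linear_combination h1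
  -- value at minus one
  have v1 : Q.eval (-1) = q := by
    have h1 : (X ^ (2 * N + 1) * Q).eval (-1) = F.eval (-1) := by rw [hXQ]
    have hc00 : c.eval (-1) = 0 := by rw [hc]; simp
    rw [eval_mul, eval_pow, eval_X, hodd, hF] at h1
    have hD0 : D.eval (-1) = (cf N 0 : K) * (-1) ^ N := by
      have h2 := W_map (evalRingHom (-1 : K)) N c X
      change D.eval (-1) = W N (c.eval (-1)) ((X : K[X]).eval (-1)) at h2
      rw [eval_X, hc00, W_zero_left] at h2
      exact h2
    have hB0 : B'.eval (-1) = (cf (N + 1) (N + 1) : K) := by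
      have h2 := W_map (evalRingHom (-1 : K)) (N + 1) 1 c
      rw [map_one] at h2
      change B'.eval (-1) = W (N + 1) 1 (c.eval (-1)) at h2
      rw [hc00, W_zero_right, one_pow, mul_one] at h2
      exact h2
    have h3 : (c ^ 2 * B * D' - D * B').eval (-1) = -(D.eval (-1) * B'.eval (-1)) := by
      rw [eval_sub, eval_mul, eval_mul, eval_mul, eval_pow, hc00]
      ring
    rw [h3, hD0, hB0] at h1
    rw [hq]
    linear_combination (-1 : K) * h1
  -- top coefficient
  have v2 : Q.coeff 2 = q := by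
    have h1 : E.coeff (2 * N + 1 + 2) = (c ^ (2 * N + 1) * Q).coeff (2 * N + 1 + 2) := by rw [hQ]
    rw [coeff_mul_add_eq_of_natDegree_le hcp.le dQ] at h1
    have hlc : (c ^ (2 * N + 1)).coeff (2 * N + 1) = -1 := by
      have h2 := coeff_pow_of_natDegree_le (m := 2 * N + 1) hd
      rw [mul_one] at h2
      rw [h2]
      have : c.coeff 1 = -1 := by rw [hc]; simp [coeff_one]
      rw [this, hodd]
    rw [hlc, hE, coeff_sub] at h1
    have h4 : (A * B').coeff (2 * N + 1 + 2) = 0 := by
      refine coeff_eq_zero_of_natDegree_lt ?_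
      refine lt_of_le_of_lt natDegree_mul_le ?_
      omega
    have h5 : (X ^ 2 * B * A').coeff (2 * N + 1 + 2) = B.coeff N * A'.coeff (N + 1) := by
      rw [mul_assoc, coeff_X_pow_mul]
      have : 2 * N + 1 = N + (N + 1) := by ring
      rw [this]
      exact coeff_mul_add_eq_of_natDegree_le dB dA'
    rw [h4, h5, hB, coeff_B, hA', coeff_A] at h1
    rw [hq]
    linear_combination h1
  -- conclusion
  have hQ3 : Q = C (Q.coeff 0) + C (Q.coeff 1) * X + C (Q.coeff 2) * X ^ 2 := by
    have := Q.as_sum_range_C_mul_X_pow' (n := 3) (by omega)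
    rw [Finset.sum_range_succ, Finset.sum_range_succ, Finset.sum_range_one] at this
    rw [pow_zero, mul_one, pow_one] at this
    exact this
  have w0 : Q.coeff 0 = q := by rw [coeff_zero_eq_eval_zero, v0]
  have w1 : Q.coeff 1 = q := by
    rw [hQ3, w0, v2] at v1
    simp only [eval_add, eval_mul, eval_C, eval_X, eval_pow] at v1
    linear_combination (-1 : K) * v1
  refine ⟨q, hq0, ?_⟩
  rw [hQ, hQ3, w0, w1, v2]
  ring

/-- two consecutive instances are not both proportional to a given point -/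
theorem nonprop {x y : K} (hx : x ≠ 0) (hx1 : x + 1 ≠ 0) (h3 : 1 + x + x ^ 2 ≠ 0) (N : ℕ) :
    x ^ (2 * N + 1) * W N x 1 - y * W N 1 (-x - 1) ≠ 0 ∨
    x ^ (2 * (N + 1) + 1) * W (N + 1) x 1 - y * W (N + 1) 1 (-x - 1) ≠ 0 := by
  by_contra hcon
  rw [not_or, not_not, not_not] at hcon
  obtain ⟨h1, h2⟩ := hcon
  obtain ⟨q, hq, hdet⟩ := det_poly (K := K) N
  have hev := congrArg (eval x) hdet
  have m1 : (W N (X : K[X]) 1).eval x = W N x 1 := by
    have := W_map (evalRingHom x) N X 1
    rw [map_one] at this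
    change (W N (X : K[X]) 1).eval x = W N ((X : K[X]).eval x) 1 at this
    rwa [eval_X] at this
  have m2 : (W (N + 1) (X : K[X]) 1).eval x = W (N + 1) x 1 := by
    have := W_map (evalRingHom x) (N + 1) X 1
    rw [map_one] at this
    change (W (N + 1) (X : K[X]) 1).eval x = W (N + 1) ((X : K[X]).eval x) 1 at this
    rwa [eval_X] at this
  have hcx : (-X - 1 : K[X]).eval x = -x - 1 := by simp
  have m3 : (W N (1 : K[X]) (-X - 1)).eval x = W N 1 (-x - 1) := by
    have := W_map (evalRingHom x) N 1 (-X - 1)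
    rw [map_one] at this
    change (W N (1 : K[X]) (-X - 1)).eval x = W N 1 ((-X - 1 : K[X]).eval x) at this
    rwa [hcx] at this
  have m4 : (W (N + 1) (1 : K[X]) (-X - 1)).eval x = W (N + 1) 1 (-x - 1) := by
    have := W_map (evalRingHom x) (N + 1) 1 (-X - 1)
    rw [map_one] at this
    change (W (N + 1) (1 : K[X]) (-X - 1)).eval x = W (N + 1) 1 ((-X - 1 : K[X]).eval x) at this
    rwa [hcx] at this
  have hsum : (1 + X + X ^ 2 : K[X]).eval x = 1 + x + x ^ 2 := by simp
  rw [eval_sub, eval_mul, eval_mul, eval_mul, eval_mul, eval_pow, eval_pow, eval_mul, m1, m2, m3,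
    m4, hcx, hsum, eval_C, eval_X] at hev
  have h4 : x ^ (2 * N + 1) * ((-x - 1) ^ (2 * N + 1) * (q * (1 + x + x ^ 2))) = 0 := by
    rw [← hev]
    have e1 : x ^ (2 * (N + 1) + 1) = x ^ (2 * N + 1) * x ^ 2 := by
      rw [← pow_add]
      congr 1
    rw [e1] at h2
    linear_combination W (N + 1) 1 (-x - 1) * h1 - W N 1 (-x - 1) * h2
  have h5 : -x - 1 ≠ 0 := by
    intro h
    apply hx1
    linear_combination -h
  exact mul_ne_zero (pow_ne_zero _ hx) (mul_ne_zero (pow_ne_zero _ h5) (mul_ne_zero hq h3)) h4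

end Poly

end Pool.Agent.TH876.Pade
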