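import Mathlib
import Pool.Agent.TH876.Glob

set_option autoImplicit false

/-!
# Counting the points whose part outside `S` is light
-/

namespace Pool.Agent.TH876.Loc

open NumberField IsDedekindDomain Finset Pool.Agent.H691R3 Pool.Agent.TH876.Pade

section Comb

/-- the number of nonnegative integer vectors of bounded sum -/
theorem count_fun {ι : Type*} [Fintype ι] [DecidableEq ι] (B : ℕ) (G : Finset (ι → ℕ))
    (hG : ∀ f ∈ G, ∑ i, f i ≤ B) : (G.card : ℝ) ≤ 2 ^ (B + Fintype.card ι) := by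
  have h1 : (G.card : ℝ) ≤ ∑ f ∈ G, 2 ^ B * ∏ i, ((1 : ℝ) / 2) ^ f i := by
    have h2 : (G.card : ℝ) = ∑ f ∈ G, (1 : ℝ) := by simp
    rw [h2]
    refine Finset.sum_le_sum fun f hf => ?_
    rw [Finset.prod_pow_eq_pow_sum, one_div, inv_pow, ← div_eq_mul_inv, one_le_div (by positivity)]
    exact pow_le_pow_right₀ (by norm_num) (hG f hf)
  refine h1.trans ?_
  rw [← Finset.mul_sum, pow_add]
  refine mul_le_mul_of_nonneg_left ?_ (by positivity)
  have h3 : G ⊆ Fintype.piFinset fun _ : ι => Finset.range (B + 1) := by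
    intro f hf
    rw [Fintype.mem_piFinset]
    intro i
    rw [Finset.mem_range, Nat.lt_succ_iff]
    exact (Finset.single_le_sum (f := f) (fun _ _ => Nat.zero_le _) (Finset.mem_univ i)).trans
      (hG f hf)
  calc ∑ f ∈ G, ∏ i, ((1 : ℝ) / 2) ^ f i
      ≤ ∑ f ∈ Fintype.piFinset fun _ : ι => Finset.range (B + 1), ∏ i, ((1 : ℝ) / 2) ^ f i :=
        Finset.sum_le_sum_of_subset_of_nonneg h3 fun _ _ _ =>
          Finset.prod_nonneg fun _ _ => by positivity
    _ = ∏ _i : ι, ∑ k ∈ Finset.range (B + 1), ((1 : ℝ) / 2) ^ k := by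
        rw [Finset.prod_univ_sum]
    _ ≤ ∏ _i : ι, (2 : ℝ) := by
        refine Finset.prod_le_prod (fun _ _ => Finset.sum_nonneg fun _ _ => by positivity)
          fun _ _ => ?_
        have := geom_sum_eq (by norm_num : ((1 : ℝ) / 2) ≠ 1) (B + 1)
        rw [this]
        have h4 : (0 : ℝ) ≤ (1 / 2) ^ (B + 1) := by positivity
        rw [div_le_iff_of_neg (by norm_num)]
        linarith
    _ = 2 ^ Fintype.card ι := by rw [Finset.prod_const, Finset.card_univ]

/-- a chain of values growing at least by the factor `4 / 3` -/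
theorem chain {α : Type*} [DecidableEq α] (h : α → ℝ) (F : Finset α)
    (hF : ∀ x ∈ F, ∀ y ∈ F, x ≠ y → h x ≤ h y → 4 / 3 * h x ≤ h y) :
    F.Nonempty → ∃ x ∈ F, ∃ y ∈ F, (4 / 3 : ℝ) ^ (F.card - 1) * h x ≤ h y ∧ (∀ z ∈ F, h z ≤ h y) := by
  induction F using Finset.induction_on_max_value h with
  | empty => intro h; exact absurd h Finset.not_nonempty_empty
  | insert a s has hmax ih =>
    intro _
    rcases s.eq_empty_or_nonempty with rfl | hs
    · refine ⟨a, Finset.mem_insert_self _ _, a, Finset.mem_insert_self _ _, ?_, ?_⟩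
      · simp
      · intro z hz
        rw [Finset.mem_insert] at hz
        rcases hz with rfl | hz
        · exact le_rfl
        · exact absurd hz (Finset.notMem_empty z)
    · obtain ⟨x, hx, y, hy, h1, h2⟩ := ih (fun x hx y hy => hF x (Finset.mem_insert_of_mem hx) y
        (Finset.mem_insert_of_mem hy)) hs
      refine ⟨x, Finset.mem_insert_of_mem hx, a, Finset.mem_insert_self _ _, ?_, ?_⟩
      · have h3 := hF y (Finset.mem_insert_of_mem hy) a (Finset.mem_insert_self _ _)
          (fun h => has (h ▸ hy)) (hmax y hy)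
        rw [Finset.card_insert_of_notMem has]
        have h4 : 1 ≤ s.card := Finset.card_pos.2 hs
        have h5 : s.card + 1 - 1 = (s.card - 1) + 1 := by omega
        rw [h5, pow_succ]
        nlinarith
      · intro z hz
        rw [Finset.mem_insert] at hz
        rcases hz with rfl | hz
        · exact le_rfl
        · exact hmax z hz

end Comb

variable {K : Type} [Field K] [NumberField K]

/-- points of positive height are not at a primitive cube root of unity -/
theorem cube_root {x : K} (hx : Pt x) (h0 : 0 < hgt x) : 1 + x + x ^ 2 ≠ 0 := by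
  intro h
  have h3 : x ^ 3 = 1 := by linear_combination (x - 1) * h
  have hav : ∀ v : Pl K, av v x = 1 := by
    intro v
    have h4 : av v x ^ 3 = 1 := by rw [← map_pow, h3, map_one]
    exact (pow_eq_one_iff_of_nonneg ((av v).nonneg _) (by norm_num)).1 h4
  have hav2 : ∀ v : Pl K, av v (-x - 1) = 1 := by
    intro v
    have : -x - 1 = x ^ 2 := by linear_combination -h
    rw [this, map_pow, hav v, one_pow]
  have hM : ∀ v : Pl K, M v x = 1 := by
    intro v
    unfold M
    have e0 : av v (L 0 x) = 1 := hav v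
    have e1 : av v (L 1 x) = 1 := map_one _
    have e2 : av v (L 2 x) = 1 := hav2 v
    rw [e0, e1, e2, max_self, max_self]
  have : hgt x = 0 := by
    unfold hgt mx
    refine Finset.sum_eq_zero fun v _ => ?_
    rw [hM v, Real.log_one, mul_zero]
  linarith

theorem Dl_zero (x y : K) : Dl 0 x y = x - y := by
  unfold Dl W cf
  simp

/-- distinct points of one cell have heights of ratio at least `4 / 3` -/
theorem ratio_lower {S : Finset (Pr K)} {x y : K} (hx : Pt x) (hy : Pt y) (hxy : x ≠ y)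
    (h0 : 0 < hgt x) (hle : hgt x ≤ hgt y) {ε κ θ : ℝ} (hε : 0 ≤ ε) (hθ0 : 0 < θ)
    (hκ : κ = 1 / 2 - θ)
    (hεθ : (Spl S).card * ε ≤ θ / 4) (hbig : 5 * (dK K * Real.log 2) ≤ θ / 4 * hgt x)
    (hcell : ∀ v ∈ Spl S, ∀ i, df v i x / hgt x ≤ df v i y / hgt y + ε)
    (hout : out S x ≤ κ * hgt x) : 4 / 3 * hgt x ≤ hgt y := by
  have hD : Dl 0 x y ≠ 0 := by
    rw [Dl_zero]
    exact sub_ne_zero.2 hxy
  have h1 := pair hx hy 0 hD h0 (by simpa using hle) ε hε hcell κ hout
  have hy0 : 0 < hgt y := lt_of_lt_of_le h0 hle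
  have hd : 0 ≤ dK K * Real.log 2 := mul_nonneg (Finset.sum_nonneg fun _ _ => Nat.cast_nonneg _)
    (Real.log_nonneg (by norm_num))
  push_cast at h1
  have h2 : ((Spl S).card * ε) * hgt y ≤ θ / 4 * hgt y := mul_le_mul_of_nonneg_right hεθ hy0.le
  rw [hκ] at h1
  nlinarith [mul_pos hθ0 h0, mul_pos hθ0 hy0, mul_nonneg hθ0.le (sub_nonneg.2 hle)]

/-- points of one cell have heights of bounded ratio -/
theorem ratio_upper {S : Finset (Pr K)} {x y : K} (hx : Pt x) (hy : Pt y)
    (h0 : 0 < hgt x) {ε κ θ : ℝ} (hε : 0 ≤ ε) (hθ0 : 0 < θ) (hθ1 : θ ≤ 1 / 2)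
    (hκ : κ = 1 / 2 - θ)
    (hεθ : (Spl S).card * ε ≤ θ / 4) (hbig : 5 * (dK K * Real.log 2) ≤ θ / 4 * hgt x)
    (hcell : ∀ v ∈ Spl S, ∀ i, df v i x / hgt x ≤ df v i y / hgt y + ε)
    (hout : out S x ≤ κ * hgt x) : hgt y ≤ (7 / θ + 5) * hgt x := by
  by_contra hcon
  rw [not_le] at hcon
  have hθi : 0 < 7 / θ := by positivity
  have hd : 0 ≤ dK K * Real.log 2 := mul_nonneg (Finset.sum_nonneg fun _ _ => Nat.cast_nonneg _)
    (Real.log_nonneg (by norm_num))
  set ρ : ℝ := hgt y / hgt x with hρ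
  have hyρ : hgt y = ρ * hgt x := by rw [hρ]; field_simp
  have hρ1 : 7 / θ + 5 < ρ := by
    rw [hρ, lt_div_iff₀ h0]
    exact hcon
  have hy0 : 0 < hgt y := by
    rw [hyρ]
    exact mul_pos (by linarith) h0
  set N : ℕ := ⌊(ρ - 3) / 2⌋₊ with hN
  have hN1 : (N : ℝ) ≤ (ρ - 3) / 2 := Nat.floor_le (by linarith)
  have hN2 : (ρ - 3) / 2 < N + 1 := Nat.lt_floor_add_one _
  have hcase : ∀ n : ℕ, N ≤ n → n ≤ N + 1 → Dl n x y ≠ 0 → False := by
    intro n hn1 hn2 hD
    have hn1' : (N : ℝ) ≤ n := by exact_mod_cast hn1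
    have hn2' : (n : ℝ) ≤ N + 1 := by exact_mod_cast hn2
    have hkρ : ((2 * n + 1 : ℕ) : ℝ) * hgt x ≤ hgt y := by
      rw [hyρ]
      refine mul_le_mul_of_nonneg_right ?_ h0.le
      push_cast
      linarith
    have h1 := pair hx hy n hD h0 hkρ ε hε hcell κ hout
    have h2 : ((Spl S).card * ε) * hgt y ≤ θ / 4 * hgt y := mul_le_mul_of_nonneg_right hεθ hy0.le
    push_cast at h1
    have hn0 : (0 : ℝ) ≤ n := Nat.cast_nonneg n
    have h3 : (5 * (n : ℝ) + 2) * (dK K * Real.log 2) ≤ (n + 1) * (θ / 4 * hgt x) := by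
      calc (5 * (n : ℝ) + 2) * (dK K * Real.log 2) ≤ (n + 1) * (5 * (dK K * Real.log 2)) := by
            nlinarith
        _ ≤ (n + 1) * (θ / 4 * hgt x) := mul_le_mul_of_nonneg_left hbig (by linarith)
    have h4 : ((n : ℝ) + 1) * hgt x ≤ (n + 1) * (θ / 4 * hgt x) + (1 + θ / 4) * (ρ * hgt x) -
        (2 * n + 1) * (1 - κ) * hgt x := by
      rw [hyρ] at h1 h2
      linarith
    have h5 : ((n : ℝ) + 1) ≤ (n + 1) * (θ / 4) + (1 + θ / 4) * ρ - (2 * n + 1) * (1 - κ) := by
      refine le_of_mul_le_mul_right ?_ h0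
      linarith
    rw [hκ] at h5
    have h6 : ρ < 2 * N + 5 := by linarith
    have h7 : 7 < θ * (ρ - 5) := by
      have : 7 / θ < ρ - 5 := by linarith
      rw [div_lt_iff₀ hθ0] at this
      linarith
    nlinarith [mul_nonneg hθ0.le (sub_nonneg.2 hn1'), mul_pos hθ0 hθ0]
  rcases nonprop hx.1 hx.2 (cube_root hx h0) N (y := y) with h | h
  · exact hcase N le_rfl (Nat.le_succ N) h
  · exact hcase (N + 1) (Nat.le_succ N) le_rfl h

/-- the height dominates the height of Mathlib -/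
theorem logHeight_le {x : K} (hx : Pt x) : Height.logHeight₁ x ≤ hgt x := by
  rw [NumberField.logHeight₁_eq]
  have h1 : ∑ᶠ v : FinitePlace K, Real.posLog (v x) = ∑ v ∈ sp x, Real.posLog (fv v x) := by
    rw [← finsum_comp_equiv (FinitePlace.equivHeightOneSpectrum (K := K)).symm]
    refine finsum_eq_sum_of_support_subset _ ?_
    intro v hv
    by_contra h
    rw [Function.mem_support] at hv
    apply hv
    have h2 : fv v x = 1 := fv_L hx h 0
    show Real.posLog (fv v x) = 0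
    rw [h2, Real.posLog_one]
  rw [h1]
  unfold hgt
  rw [sum_Spl]
  have key : ∀ v : Pl K, Real.posLog (av v x) ≤ Real.log (M v x) := by
    intro v
    rw [Real.posLog_apply]
    refine max_le (Real.log_nonneg (one_le_M v x)) ?_
    exact Real.log_le_log ((av v).pos hx.1) (av_L_le v x 0)
  refine add_le_add (Finset.sum_le_sum fun w _ => ?_) (Finset.sum_le_sum fun v _ => ?_)
  · exact mul_le_mul_of_nonneg_left (key (Sum.inl w)) (Nat.cast_nonneg _)
  · have := key (Sum.inr v)
    show Real.posLog (fv v x) ≤ 1 * Real.log (M (Sum.inr v) x)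
    rw [one_mul]
    exact this

theorem northcott (B : ℝ) : {x : K | Pt x ∧ hgt x < B}.Finite := by
  refine (NumberField.finite_setOfPred_logHeight₁_le K B).subset ?_
  rintro x ⟨hx, hB⟩
  exact (logHeight_le hx).trans hB.le

theorem dK_nonneg : 0 ≤ dK K * Real.log 2 :=
  mul_nonneg (Finset.sum_nonneg fun _ _ => Nat.cast_nonneg _) (Real.log_nonneg (by norm_num))

/-- the colour of a point -/
noncomputable def col (T : Finset (Pl K)) (D : ℕ) (x : K) : (T × Fin 3) → ℕ :=
  fun p => ⌊(D : ℝ) * (df p.1.1 p.2 x / hgt x)⌋₊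

theorem col_close {T : Finset (Pl K)} {D : ℕ} (hD : 0 < D) {x y : K} (hy : Pt y)
    (h : col T D x = col T D y) (v : Pl K) (hv : v ∈ T) (i : Fin 3) :
    df v i x / hgt x ≤ df v i y / hgt y + 1 / D := by
  have hD' : (0 : ℝ) < D := by exact_mod_cast hD
  have h1 := congrFun h (⟨v, hv⟩, i)
  unfold col at h1
  simp only at h1
  have h2 : (D : ℝ) * (df v i x / hgt x) < ⌊(D : ℝ) * (df v i x / hgt x)⌋₊ + 1 :=
    Nat.lt_floor_add_one _
  rw [h1] at h2
  have h3 : 0 ≤ (D : ℝ) * (df v i y / hgt y) :=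
    mul_nonneg hD'.le (div_nonneg (df_nonneg v i hy) (hgt_nonneg y))
  have h4 : (⌊(D : ℝ) * (df v i y / hgt y)⌋₊ : ℝ) ≤ (D : ℝ) * (df v i y / hgt y) := Nat.floor_le h3
  have h5 : (D : ℝ) * (df v i x / hgt x) ≤ D * (df v i y / hgt y + 1 / D) := by
    rw [mul_add, mul_one_div_cancel hD'.ne']
    linarith
  exact le_of_mul_le_mul_left h5 hD'

theorem col_sum (S : Finset (Pr K)) {D : ℕ} {x : K} (hx : Pt x) (h0 : 0 < hgt x) :
    ∑ p, col (Spl S) D x p ≤ 3 * D := by
  classical
  have h1 : ((∑ p, col (Spl S) D x p : ℕ) : ℝ) ≤ 3 * D := by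
    rw [Nat.cast_sum]
    calc ∑ p : (Spl S) × Fin 3, (col (Spl S) D x p : ℝ)
        ≤ ∑ p : (Spl S) × Fin 3, (D : ℝ) * (df p.1.1 p.2 x / hgt x) := by
          refine Finset.sum_le_sum fun p _ => ?_
          exact Nat.floor_le (mul_nonneg (Nat.cast_nonneg _)
            (div_nonneg (df_nonneg _ _ hx) (hgt_nonneg x)))
      _ = D * ((∑ v : Spl S, gd v.1 x) / hgt x) := by
          rw [Fintype.sum_prod_type, Finset.sum_div, Finset.mul_sum]
          refine Finset.sum_congr rfl fun v _ => ?_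
          unfold gd
          rw [Finset.sum_div, Finset.mul_sum]
      _ ≤ D * 3 := by
          refine mul_le_mul_of_nonneg_left ?_ (Nat.cast_nonneg _)
          rw [div_le_iff₀ h0, ← sum_gd hx (Finset.subset_union_left : sp x ⊆ sp x ∪ S)]
          rw [Finset.sum_coe_sort (Spl S) (fun v => gd v x)]
          exact Finset.sum_le_sum_of_subset_of_nonneg (Spl_mono Finset.subset_union_right)
            fun v _ _ => gd_nonneg v hx
      _ = 3 * D := by ring
  exact_mod_cast h1

theorem final_real {e l B A c : ℝ} (s : ℕ) (hA1 : 1 ≤ A) (hB0 : 0 ≤ B) (hc : 0 ≤ c)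
    (he : e ≤ l + c) (hl : l ≤ B * A ^ s) : e ≤ ((B + c + 1) * A) ^ (s + 1) := by
  have hAS : 1 ≤ A ^ s := one_le_pow₀ hA1
  have h1 : e ≤ (B + c + 1) * A ^ s := by nlinarith
  refine h1.trans ?_
  rw [mul_pow]
  refine mul_le_mul ?_ (pow_le_pow_right₀ hA1 (Nat.le_succ _)) (by positivity) (by positivity)
  exact le_self_pow₀ (by linarith) (Nat.succ_ne_zero _)

end Pool.Agent.TH876.Loc
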