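import Mathlib
import Pool.Agent.TH876.Small

set_option autoImplicit false

/-!
# Counting the points whose part outside `S` is light, uniformly in the field
-/

namespace Pool.Agent.TH876.Loc

open NumberField IsDedekindDomain Finset Pool.Agent.H691R3

/-- the number of points whose part outside `S` is at most `κ` times the height -/
theorem light_count (n : ℕ) (κ : ℝ) (hκ : κ < 1 / 2) :
    ∃ C : ℝ, 1 ≤ C ∧ ∀ (K : Type) [Field K] [NumberField K], Module.finrank ℚ K = n →
      ∀ (S : Finset (Pr K)) (E : Finset K),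
      (∀ x ∈ E, Pt x ∧ out S x ≤ κ * hgt x) → (E.card : ℝ) ≤ C ^ (S.card + 1) := by
  classical
  set θ : ℝ := min (1 / 2) (1 / 2 - κ) with hθ
  have hθ0 : 0 < θ := lt_min (by norm_num) (by linarith)
  have hθ1 : θ ≤ 1 / 2 := min_le_left _ _
  have hθ2 : κ ≤ 1 / 2 - θ := by
    have := min_le_right (1 / 2) (1 / 2 - κ)
    linarith
  have hlog2 : 0 ≤ Real.log 2 := Real.log_nonneg (by norm_num)
  set H0 : ℝ := 20 * ((n : ℝ) * Real.log 2) / θ + 1 with hH0
  have hH0pos : 0 < H0 := by positivity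
  obtain ⟨m, hm⟩ := exists_nat_ge (4 / θ)
  have hm0 : 0 < (m : ℝ) := lt_of_lt_of_le (by positivity) hm
  have hm0' : 0 < m := by exact_mod_cast hm0
  obtain ⟨R, hR⟩ := pow_unbounded_of_one_lt (7 / θ + 5) (by norm_num : (1 : ℝ) < 4 / 3)
  obtain ⟨c0, hc0, hsmall⟩ := northcott_uniform n H0
  set A : ℝ := 2 ^ (3 * (m + 1)) with hA
  have hA1 : 1 ≤ A := one_le_pow₀ (by norm_num)
  set B : ℝ := R * A ^ n with hB
  have hB0 : 0 ≤ B := by positivity
  refine ⟨(B + c0 + 1) * A, ?_, ?_⟩
  · have : 1 ≤ B + c0 + 1 := by linarith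
    nlinarith
  intro K _ _ hn S E hE
  have hdn : dK K = n := by
    unfold dK
    rw [← hn, ← InfinitePlace.sum_mult_eq]
    push_cast
    rfl
  set r := Fintype.card (InfinitePlace K) with hr
  have hr0 : 0 < r := by
    rw [hr]
    exact Fintype.card_pos
  have hrn : r ≤ n := by
    rw [hr, ← hn, ← InfinitePlace.sum_mult_eq, ← Finset.card_univ, Finset.card_eq_sum_ones]
    exact Finset.sum_le_sum fun w _ => InfinitePlace.mult_pos
  set t := (Spl S).card with ht
  have htr : t = r + S.card := card_Spl S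
  have ht0 : 0 < t := by omega
  set D := m * t with hD
  have hD0 : 0 < D := Nat.mul_pos hm0' ht0
  set El := E.filter (fun x => H0 ≤ hgt x) with hEl
  have hcell : ∀ c ∈ El.image (col (Spl S) D), (El.filter (fun x => col (Spl S) D x = c)).card ≤ R := by
    intro c _
    set F := El.filter (fun x => col (Spl S) D x = c) with hF
    have hFE : ∀ x ∈ F, Pt x ∧ out S x ≤ (1 / 2 - θ) * hgt x ∧ 0 < hgt x ∧
        5 * (dK K * Real.log 2) ≤ θ / 4 * hgt x ∧ col (Spl S) D x = c := by
      intro x hx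
      rw [hF, Finset.mem_filter, hEl, Finset.mem_filter] at hx
      obtain ⟨⟨h1, h2⟩, h3⟩ := hx
      obtain ⟨h4, h5⟩ := hE x h1
      have h6 : 0 < hgt x := lt_of_lt_of_le hH0pos h2
      refine ⟨h4, h5.trans (mul_le_mul_of_nonneg_right hθ2 h6.le), h6, ?_, h3⟩
      have h7 : 20 * ((n : ℝ) * Real.log 2) / θ ≤ hgt x := by rw [hH0] at h2; linarith
      rw [div_le_iff₀ hθ0] at h7
      rw [hdn]
      linarith
    have hε : (0 : ℝ) ≤ 1 / D := by positivity
    have htε : (t : ℝ) * (1 / D) ≤ θ / 4 := by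
      have ht0' : (0 : ℝ) < t := by exact_mod_cast ht0
      have : (t : ℝ) * (1 / D) = 1 / m := by
        rw [hD]; push_cast; field_simp
      rw [this, div_le_iff₀ hm0]
      rw [div_le_iff₀ hθ0] at hm
      linarith
    by_cases hne : F.Nonempty
    swap
    · rw [Finset.not_nonempty_iff_eq_empty.1 hne]; simp
    obtain ⟨x, hx, y, hy, h1, _⟩ := chain hgt F (by
      intro x hx y hy hxy hle
      obtain ⟨a1, a2, a3, a4, a5⟩ := hFE x hx
      obtain ⟨b1, _, _, _, b5⟩ := hFE y hy
      exact ratio_lower a1 b1 hxy a3 hle hε hθ0 rfl htε a4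
        (fun v hv i => col_close hD0 b1 (a5.trans b5.symm) v hv i) a2) hne
    obtain ⟨a1, a2, a3, a4, a5⟩ := hFE x hx
    obtain ⟨b1, _, _, _, b5⟩ := hFE y hy
    have h2 := ratio_upper a1 b1 a3 hε hθ0 hθ1 rfl htε a4
        (fun v hv i => col_close hD0 b1 (a5.trans b5.symm) v hv i) a2
    have h3 : (4 / 3 : ℝ) ^ (F.card - 1) < (4 / 3 : ℝ) ^ R := by
      have h4 : (4 / 3 : ℝ) ^ (F.card - 1) * hgt x ≤ (7 / θ + 5) * hgt x := h1.trans h2
      exact lt_of_le_of_lt (le_of_mul_le_mul_right h4 a3) hR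
    have h5 := (pow_lt_pow_iff_right₀ (by norm_num : (1 : ℝ) < 4 / 3)).1 h3
    omega
  have hEl1 : El.card ≤ R * (El.image (col (Spl S) D)).card :=
    Finset.card_le_mul_card_image El R hcell
  have hEl2 : ((El.image (col (Spl S) D)).card : ℝ) ≤ A ^ t := by
    have h1 := count_fun (3 * D) (El.image (col (Spl S) D)) (by
      intro f hf
      obtain ⟨x, hx, rfl⟩ := Finset.mem_image.1 hf
      rw [hEl, Finset.mem_filter] at hx
      exact col_sum S (hE x hx.1).1 (lt_of_lt_of_le hH0pos hx.2))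
    refine h1.trans (le_of_eq ?_)
    rw [hA, ← pow_mul]
    congr 1
    rw [Fintype.card_prod, Fintype.card_coe, Fintype.card_fin, ← ht, hD]
    ring
  have hEs : ((E.filter (fun x => ¬ H0 ≤ hgt x)).card : ℝ) ≤ c0 := by
    refine hsmall K hn _ ?_
    intro x hx
    rw [Finset.mem_filter] at hx
    exact ⟨(hE x hx.1).1, not_le.1 hx.2⟩
  have htot : (E.card : ℝ) = El.card + (E.filter (fun x => ¬ H0 ≤ hgt x)).card := by
    have := Finset.card_filter_add_card_filter_not (s := E) (fun x => H0 ≤ hgt x)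
    rw [← this]
    push_cast
    rfl
  have hl : (El.card : ℝ) ≤ B * A ^ S.card := by
    calc (El.card : ℝ) ≤ R * ((El.image (col (Spl S) D)).card : ℝ) := by exact_mod_cast hEl1
      _ ≤ R * A ^ t := mul_le_mul_of_nonneg_left hEl2 (Nat.cast_nonneg _)
      _ ≤ R * A ^ (n + S.card) :=
          mul_le_mul_of_nonneg_left (pow_le_pow_right₀ hA1 (by omega)) (Nat.cast_nonneg _)
      _ = B * A ^ S.card := by rw [pow_add, hB]; ring
  exact final_real S.card hA1 hB0 hc0 (by rw [htot]; linarith) hl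

end Pool.Agent.TH876.Loc
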