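import Mathlib
import Pool.Agent.TH876.Rad

set_option autoImplicit false

/-!
# The number of points with radical up to `X`
-/

namespace Pool.Agent.TH876.Loc

open NumberField IsDedekindDomain Finset Pool.Agent.H691R3

variable {K : Type} [Field K] [NumberField K]

/-- points whose radical has `6 j + 1` large parts -/
theorem count_splits (n j : ℕ) : ∃ (c : ℝ) (k : ℕ), 0 < c ∧
    ∀ (K : Type) [Field K] [NumberField K], Module.finrank ℚ K = n →
    ∀ (X : ℝ), 3 ≤ X → ∀ (Y : ℝ), 0 < Y →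
    ∀ (E : Finset K), (∀ x ∈ E, Pt x ∧ nn (sp x) ≤ X ∧ Splits Y (6 * j + 1) (sp x)) →
    (E.card : ℝ) ≤ c * (X / Y ^ j) * Real.log X ^ k := by
  classical
  obtain ⟨C, hC1, hC⟩ := light_count n (3 * j / (6 * j + 1)) (by
    rw [div_lt_iff₀ (by positivity)]
    linarith)
  obtain ⟨c, k, hc, h⟩ := count_sets hC1 hC
  refine ⟨c, k, hc, ?_⟩
  intro K _ _ hn X hX Y hY E hE
  have hex : ∀ x : K, ∃ s : Finset (Pr K), x ∈ E → s ⊆ sp x ∧
      out s x ≤ (3 * j / (6 * j + 1)) * hgt x ∧ nn s * Y ^ j ≤ nn (sp x) := by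
    intro x
    by_cases hx : x ∈ E
    · obtain ⟨s, h1, h2, h3⟩ := light_of_splits (hE x hx).1 hY j (hE x hx).2.2
      exact ⟨s, fun _ => ⟨h1, h2, h3⟩⟩
    · exact ⟨∅, fun h => absurd h hx⟩
  choose σ hσ using hex
  refine h K hn X hX (X / Y ^ j) (by positivity) E σ ?_
  intro x hx
  obtain ⟨h1, h2, h3⟩ := hσ x hx
  refine ⟨(hE x hx).1, h2, ?_, ?_⟩
  · rw [le_div_iff₀ (by positivity)]
    exact h3.trans (hE x hx).2.1
  · intro v hv
    exact (Nv_le_nn (h1 hv)).trans (hE x hx).2.1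

/-- the trivial bound -/
theorem count_trivial (n : ℕ) : ∃ (c : ℝ) (k : ℕ), 0 < c ∧
    ∀ (K : Type) [Field K] [NumberField K], Module.finrank ℚ K = n →
    ∀ (X : ℝ), 3 ≤ X → ∀ (Z : ℝ), 0 < Z → Z ≤ X →
    ∀ (E : Finset K), (∀ x ∈ E, Pt x ∧ nn (sp x) ≤ Z) →
    (E.card : ℝ) ≤ c * Z * Real.log X ^ k := by
  obtain ⟨C, hC1, hC⟩ := light_count n (3 / 7) (by norm_num)
  obtain ⟨c, k, hc, h⟩ := count_sets hC1 hC
  refine ⟨c, k, hc, ?_⟩
  intro K _ _ hn X hX Z hZ hZX E hE
  refine h K hn X hX Z hZ E sp ?_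
  intro x hx
  refine ⟨(hE x hx).1, ?_, (hE x hx).2, ?_⟩
  · rw [out_sp]
    exact mul_nonneg (by norm_num) (hgt_nonneg x)
  · intro v hv
    exact ((Nv_le_nn hv).trans (hE x hx).2).trans hZX

open Classical in
/-- points whose radical has a large prime factor and a small cofactor of a special shape -/
theorem count_large {nK : ℕ} {C : ℝ} (hC1 : 1 ≤ C) (hC : LightBound nK (3 / 7) C) (A : ℕ) :
    ∃ (c : ℝ) (k : ℕ), 0 < c ∧ ∀ (K : Type) [Field K] [NumberField K], Module.finrank ℚ K = nK →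
      ∀ (X : ℝ), 16 ≤ X → ∀ (E : Finset K)
      (s b : K → Finset (Pr K)) (q : K → Pr K),
      (∀ x ∈ E, Pt x ∧ nn (sp x) ≤ X ∧ sp x = insert (q x) (s x ∪ b x) ∧ q x ∉ s x ∪ b x ∧
        Disjoint (s x) (b x) ∧ (b x).card ≤ 5 ∧ nn (s x) ≤ Real.log X ^ A ∧
        X ^ ((1 : ℝ) / 12) ≤ Nv (q x)) →
      (E.card : ℝ) ≤ c * X / Real.log X * Real.log (Real.log X) ^ k := by
  classical
  obtain ⟨c1, k1, hc1, h1⟩ := sum_pow_card nK C hC1
  obtain ⟨c0, hc0, h0⟩ := sum_inv_le
  set n : ℝ := (nK : ℝ) with hn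
  have hn0 : 0 ≤ n := Nat.cast_nonneg _
  have hC0 : 0 < C := by linarith
  set W1 : ℝ := C * (n * (1 + c0)) + 1 with hW1
  have hW1' : 0 < W1 := by positivity
  have hW11 : 1 ≤ W1 := by
    have : 0 ≤ C * (n * (1 + c0)) := by positivity
    rw [hW1]
    linarith
  refine ⟨60 * n * C ^ 2 * ((c1 * (A + 2) ^ k1) * (Real.exp 1 * W1 ^ 5)) + 1, k1 + 5,
    by positivity, ?_⟩
  intro K _ _ hnK X hX E s b q hE
  have hnr : (Module.finrank ℚ K : ℝ) = n := by rw [hn, hnK]
  have hX0 : 0 < X := by linarith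
  have hL1 : Real.exp 1 ≤ Real.log X := by
    rw [Real.le_log_iff_exp_le hX0]
    have h2 := Real.exp_one_lt_d9
    have h3 : Real.exp (Real.exp 1) ≤ Real.exp (2.7182818286) := Real.exp_le_exp.2 h2.le
    have h4 : Real.exp (2.7182818286 : ℝ) ≤ 16 := by
      have h5 : Real.log 2 * 4 = Real.log 16 := by
        have : (16 : ℝ) = 2 ^ 4 := by norm_num
        rw [this, Real.log_pow]
        push_cast
        ring
      rw [← Real.le_log_iff_exp_le (by norm_num), ← h5]
      have := Real.log_two_gt_d9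
      linarith
    linarith
  set L : ℝ := Real.log X with hL
  have he := Real.exp_one_gt_d9
  have hL0 : 0 < L := by linarith
  have hl1 : 1 ≤ Real.log L := by
    rw [Real.le_log_iff_exp_le hL0]
    exact hL1
  set l : ℝ := Real.log L with hl
  have hl0 : 0 < l := by linarith
  -- the data attached to a point
  set τ : K → (Finset (Pr K) × Finset (Pr K)) × Pr K := fun x => ((s x, b x), q x) with hτ
  set T := E.image τ with hT
  set P := T.image Prod.fst with hP
  set G : Finset (Pr K) → ℝ := fun t => ∏ v ∈ t, (C / Nv v) with hG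
  have hG0 : ∀ t, 0 ≤ G t := fun t => Finset.prod_nonneg fun v _ => by
    have := Nv_pos v
    positivity
  -- number of points with given data
  have e1 : (E.card : ℝ) ≤ ∑ t ∈ T, C ^ (t.1.1.card + t.1.2.card + 2) := by
    have h2 : (E.card : ℝ) = ∑ t ∈ T, ((E.filter fun x => τ x = t).card : ℝ) := by
      exact_mod_cast Finset.card_eq_sum_card_image τ E
    rw [h2]
    refine Finset.sum_le_sum fun t ht => ?_
    obtain ⟨y, hy, rfl⟩ := Finset.mem_image.1 ht
    obtain ⟨_, _, hspy, hqy, hdy, _, _, _⟩ := hE y hy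
    have h3 := hC K hnK (sp y) (E.filter fun x => τ x = τ y) (by
      intro x hx
      obtain ⟨hxE, hxy⟩ := Finset.mem_filter.1 hx
      obtain ⟨hxP, _, hspx, _, _, _, _, _⟩ := hE x hxE
      have hsp : sp x = sp y := by
        have e1 : s x = s y := congrArg (fun t => t.1.1) hxy
        have e2 : b x = b y := congrArg (fun t => t.1.2) hxy
        have e3 : q x = q y := congrArg (fun t => t.2) hxy
        rw [hspx, hspy, e1, e2, e3]
      refine ⟨hxP, ?_⟩
      rw [← hsp, out_sp]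
      exact mul_nonneg (by norm_num) (hgt_nonneg x))
    refine h3.trans (le_of_eq ?_)
    congr 1
    rw [hspy, Finset.card_insert_of_notMem hqy, Finset.card_union_of_disjoint hdy]
  -- the number of large primes
  have e2 : ∑ t ∈ T, C ^ (t.1.1.card + t.1.2.card + 2) ≤
      ∑ p ∈ P, 60 * n * C ^ 2 * (X / L) * (G p.1 * G p.2) := by
    have h2 : ∑ t ∈ T, C ^ (t.1.1.card + t.1.2.card + 2) =
        ∑ p ∈ P, ((T.filter fun t => t.1 = p).card : ℝ) * C ^ (p.1.card + p.2.card + 2) := by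
      rw [hP, Finset.sum_comp (fun p : Finset (Pr K) × Finset (Pr K) =>
        C ^ (p.1.card + p.2.card + 2)) Prod.fst]
      simp only [nsmul_eq_mul]
    rw [h2]
    refine Finset.sum_le_sum fun p hp => ?_
    obtain ⟨t, ht, rfl⟩ := Finset.mem_image.1 hp
    obtain ⟨y, hy, rfl⟩ := Finset.mem_image.1 ht
    obtain ⟨_, hny, hspy, hqy, hdy, _, _, hqN⟩ := hE y hy
    set Z : ℝ := X / (nn (s y) * nn (b y)) with hZ
    have hsb : 0 < nn (s y) * nn (b y) := mul_pos (nn_pos _) (nn_pos _)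
    have hNq : ∀ x ∈ E, s x = s y → b x = b y → Nv (q x) ≤ Z := by
      intro x hx e1 e2
      obtain ⟨_, hnx, hspx, hqx, hdx, _, _, _⟩ := hE x hx
      rw [hZ, le_div_iff₀ hsb, ← e1, ← e2, ← nn_union hdx, ← nn_insert hqx, ← hspx]
      exact hnx
    have hZ1 : X ^ ((1 : ℝ) / 12) ≤ Z := hqN.trans (hNq y hy rfl rfl)
    have hlogZ : L / 12 ≤ Real.log Z := by
      have h3 := Real.log_le_log (Real.rpow_pos_of_pos hX0 _) hZ1
      rw [Real.log_rpow hX0] at h3
      linarith
    have hlogZ0 : 0 < Real.log Z := by linarith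
    have hZpos : 0 < Z := by positivity
    have hZ1' : 1 < Z := by
      by_contra hcon
      have := Real.log_nonpos hZpos.le (not_lt.1 hcon)
      linarith
    have hcard : ((T.filter fun t => t.1 = (τ y).1).card : ℝ) ≤ 60 * n * (Z / L) := by
      have hinj : (T.filter fun t => t.1 = (τ y).1).card =
          ((T.filter fun t => t.1 = (τ y).1).image Prod.snd).card := by
        rw [Finset.card_image_of_injOn]
        intro t ht t' ht' htt
        have a1 := (Finset.mem_filter.1 ht).2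
        have a2 := (Finset.mem_filter.1 ht').2
        exact Prod.ext (a1.trans a2.symm) htt
      rw [hinj]
      refine (card_primes_le hZ1' _ ?_).trans ?_
      · intro v hv
        obtain ⟨t, ht, rfl⟩ := Finset.mem_image.1 hv
        obtain ⟨ht1, ht2⟩ := Finset.mem_filter.1 ht
        obtain ⟨x, hx, rfl⟩ := Finset.mem_image.1 ht1
        exact hNq x hx (congrArg Prod.fst ht2) (congrArg Prod.snd ht2)
      · have h4 : Z / Real.log Z ≤ 12 * (Z / L) := by
          rw [div_le_iff₀ hlogZ0]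
          have : 12 * (Z / L) * Real.log Z = (Z / L) * (12 * Real.log Z) := by ring
          rw [this]
          have h5 : Z = Z / L * L := by field_simp
          calc Z = Z / L * L := h5
            _ ≤ Z / L * (12 * Real.log Z) := by
                refine mul_le_mul_of_nonneg_left ?_ (by positivity)
                linarith
        rw [hnr]
        calc 5 * n * (Z / Real.log Z) ≤ 5 * n * (12 * (Z / L)) :=
              mul_le_mul_of_nonneg_left h4 (by positivity)
          _ = _ := by ring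
    have h6 : Z * C ^ ((s y).card + (b y).card + 2) = C ^ 2 * X * (G (s y) * G (b y)) := by
      rw [hG]
      simp only
      rw [prod_C, prod_C, hZ]
      have := (nn_pos (s y)).ne'
      have := (nn_pos (b y)).ne'
      field_simp
      ring
    calc ((T.filter fun t => t.1 = (τ y).1).card : ℝ) * C ^ ((s y).card + (b y).card + 2)
        ≤ 60 * n * (Z / L) * C ^ ((s y).card + (b y).card + 2) :=
          mul_le_mul_of_nonneg_right hcard (by positivity)
      _ = 60 * n / L * (Z * C ^ ((s y).card + (b y).card + 2)) := by ring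
      _ = 60 * n * C ^ 2 * (X / L) * (G (s y) * G (b y)) := by rw [h6]; ring
  -- the sums over the two factors
  have e3 : ∑ p ∈ P, G p.1 * G p.2 ≤
      (∑ t ∈ P.image Prod.fst, G t) * (∑ t ∈ P.image Prod.snd, G t) := by
    rw [Finset.sum_mul_sum, ← Finset.sum_product']
    refine Finset.sum_le_sum_of_subset_of_nonneg ?_ fun p _ _ => mul_nonneg (hG0 _) (hG0 _)
    intro p hp
    rw [Finset.mem_product]
    exact ⟨Finset.mem_image_of_mem _ hp, Finset.mem_image_of_mem _ hp⟩
  have hmemP : ∀ p ∈ P, ∃ x ∈ E, s x = p.1 ∧ b x = p.2 := by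
    intro p hp
    obtain ⟨t, ht, rfl⟩ := Finset.mem_image.1 hp
    obtain ⟨y, hy, rfl⟩ := Finset.mem_image.1 ht
    exact ⟨y, hy, rfl, rfl⟩
  have e4 : ∑ t ∈ P.image Prod.fst, G t ≤ c1 * (A + 2) ^ k1 * l ^ k1 := by
    have h3 : (3 : ℝ) ≤ L ^ (A + 2) := by
      have : (3 : ℝ) ≤ L ^ 2 := by nlinarith
      refine this.trans (pow_le_pow_right₀ (by linarith) (by omega))
    have h4 := h1 K hnK (L ^ (A + 2)) h3 (P.image Prod.fst) (by
      intro t ht v hv
      obtain ⟨p, hp, rfl⟩ := Finset.mem_image.1 ht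
      obtain ⟨x, hx, e1, _⟩ := hmemP p hp
      obtain ⟨_, _, _, _, _, _, hA, _⟩ := hE x hx
      rw [← e1] at hv
      refine (Nv_le_nn hv).trans (hA.trans (pow_le_pow_right₀ (by linarith) (by omega))))
    refine h4.trans (le_of_eq ?_)
    rw [Real.log_pow, mul_pow]
    push_cast
    ring
  have e5 : ∑ t ∈ P.image Prod.snd, G t ≤ Real.exp 1 * W1 ^ 5 * l ^ 5 := by
    have h3 := sum_few (fun v : Pr K => C / Nv v) (fun v => by have := Nv_pos v; positivity)
      ((P.image Prod.snd).biUnion id) (W1 * l) (by nlinarith) (by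
        have h4 : ∑ v ∈ (P.image Prod.snd).biUnion id, C / Nv v =
            C * ∑ v ∈ (P.image Prod.snd).biUnion id, 1 / Nv v := by
          rw [Finset.mul_sum]
          exact Finset.sum_congr rfl fun v _ => by ring
        rw [h4]
        have h5 := h0 K X (by linarith) ((P.image Prod.snd).biUnion id) (by
          intro v hv
          obtain ⟨t, ht, hv⟩ := Finset.mem_biUnion.1 hv
          obtain ⟨p, hp, rfl⟩ := Finset.mem_image.1 ht
          obtain ⟨x, hx, _, e2⟩ := hmemP p hp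
          obtain ⟨_, hnx, hspx, _, _, _, _, _⟩ := hE x hx
          refine (Nv_le_nn ?_).trans hnx
          rw [hspx]
          refine Finset.mem_insert_of_mem (Finset.mem_union_right _ ?_)
          rw [e2]
          exact hv)
        rw [hnr] at h5
        have h6 : C * ∑ v ∈ (P.image Prod.snd).biUnion id, 1 / Nv v ≤ C * (n * (l + c0)) :=
          mul_le_mul_of_nonneg_left h5 hC0.le
        refine h6.trans ?_
        have h7 : C * (n * (l + c0)) ≤ C * (n * (1 + c0)) * l := by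
          have h8 : l + c0 ≤ (1 + c0) * l := by nlinarith
          calc C * (n * (l + c0)) ≤ C * (n * ((1 + c0) * l)) := by gcongr
            _ = _ := by ring
        have h9 : C * (n * (1 + c0)) * l ≤ W1 * l := by
          refine mul_le_mul_of_nonneg_right ?_ hl0.le
          rw [hW1]
          linarith
        exact h7.trans h9)
      5 (P.image Prod.snd) (by
        intro t ht
        refine ⟨Finset.subset_biUnion_of_mem id ht, ?_⟩
        obtain ⟨p, hp, rfl⟩ := Finset.mem_image.1 ht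
        obtain ⟨x, hx, _, e2⟩ := hmemP p hp
        obtain ⟨_, _, _, _, _, h5, _, _⟩ := hE x hx
        rw [← e2]
        exact h5)
    refine h3.trans (le_of_eq ?_)
    rw [mul_pow]
    ring
  have e6 : ∑ p ∈ P, 60 * n * C ^ 2 * (X / L) * (G p.1 * G p.2) ≤
      60 * n * C ^ 2 * (X / L) * ((c1 * (A + 2) ^ k1 * l ^ k1) * (Real.exp 1 * W1 ^ 5 * l ^ 5)) := by
    rw [← Finset.mul_sum]
    refine mul_le_mul_of_nonneg_left (e3.trans ?_) (by positivity)
    exact mul_le_mul e4 e5 (Finset.sum_nonneg fun t _ => hG0 t) (by positivity)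
  refine (e1.trans (e2.trans e6)).trans ?_
  have h7 : 60 * n * C ^ 2 * (X / L) * ((c1 * (A + 2) ^ k1 * l ^ k1) * (Real.exp 1 * W1 ^ 5 * l ^ 5)) =
      (60 * n * C ^ 2 * ((c1 * (A + 2) ^ k1) * (Real.exp 1 * W1 ^ 5))) * X / L * l ^ (k1 + 5) := by
    rw [pow_add]; ring
  rw [h7]
  refine mul_le_mul_of_nonneg_right ?_ (by positivity)
  refine div_le_div_of_nonneg_right ?_ hL0.le
  refine mul_le_mul_of_nonneg_right ?_ hX0.le
  linarith

theorem log_facts {X : ℝ} (hX : 16 ≤ X) : Real.exp 1 ≤ Real.log X := by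
  rw [Real.le_log_iff_exp_le (by linarith)]
  have h2 := Real.exp_one_lt_d9
  have h3 : Real.exp (Real.exp 1) ≤ Real.exp (2.7182818286) := Real.exp_le_exp.2 h2.le
  have h4 : Real.exp (2.7182818286 : ℝ) ≤ 16 := by
    have h5 : Real.log 2 * 4 = Real.log 16 := by
      have : (16 : ℝ) = 2 ^ 4 := by norm_num
      rw [this, Real.log_pow]
      push_cast
      ring
    rw [← Real.le_log_iff_exp_le (by norm_num), ← h5]
    have := Real.log_two_gt_d9
    linarith
  linarith

theorem exists_large (m : ℕ) : ∃ X0 : ℝ, 16 ≤ X0 ∧ ∀ X : ℝ, X0 ≤ X →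
    Real.log X ^ m * X ^ ((1 : ℝ) / 2) ≤ X := by
  have h1 := (Real.isLittleO_pow_log_id_atTop (n := 2 * m)).bound (c := 1) one_pos
  obtain ⟨X1, hX1⟩ := Filter.eventually_atTop.1 h1
  refine ⟨max 16 X1, le_max_left _ _, fun X hX => ?_⟩
  have hX16 : 16 ≤ X := (le_max_left _ _).trans hX
  have hX0 : 0 < X := by linarith
  have h2 := hX1 X ((le_max_right _ _).trans hX)
  have hL : 0 ≤ Real.log X := Real.log_nonneg (by linarith)
  rw [Real.norm_of_nonneg (pow_nonneg hL _), id, Real.norm_of_nonneg hX0.le, one_mul] at h2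
  have h3 : Real.log X ^ m ≤ X ^ ((1 : ℝ) / 2) := by
    rw [← Real.sqrt_eq_rpow]
    refine Real.le_sqrt_of_sq_le ?_
    rw [← pow_mul, mul_comm]
    exact h2
  have h4 : 0 ≤ X ^ ((1 : ℝ) / 2) := by positivity
  calc Real.log X ^ m * X ^ ((1 : ℝ) / 2) ≤ X ^ ((1 : ℝ) / 2) * X ^ ((1 : ℝ) / 2) :=
        mul_le_mul_of_nonneg_right h3 h4
    _ = X := by rw [← Real.rpow_add hX0]; norm_num

/-- the number of points with radical up to `X` -/
theorem count_all (n : ℕ) : ∃ (c : ℝ) (k : ℕ), 0 < c ∧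
    ∀ (K : Type) [Field K] [NumberField K], Module.finrank ℚ K = n →
    ∀ (X : ℝ), 16 ≤ X → ∀ (E : Finset K), (∀ x ∈ E, Pt x ∧ nn (sp x) ≤ X) →
    (E.card : ℝ) ≤ c * X / Real.log X * Real.log (Real.log X) ^ k := by
  classical
  obtain ⟨c1, k1, hc1, h1⟩ := count_splits n 1
  obtain ⟨c2, k2, hc2, h2⟩ := count_trivial n
  obtain ⟨C, hC1, hC⟩ := light_count n (3 / 7) (by norm_num)
  set m := k1 + 1 with hm
  obtain ⟨c3, k3, hc3, h3⟩ := count_large hC1 hC (14 * m)
  obtain ⟨X0, hX0, hX0'⟩ := exists_large ((k2 + 1) + 14 * m)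
  have hL00 : 0 < Real.log X0 := Real.log_pos (by linarith)
  refine ⟨c1 + c2 + c3 + c2 * Real.log X0 ^ (k2 + 1), k3, by positivity, ?_⟩
  intro K _ _ hn X hX E hE
  have hXp : 0 < X := by linarith
  have hL1 := log_facts hX
  set L : ℝ := Real.log X with hL
  have he := Real.exp_one_gt_d9
  have hL0 : 0 < L := by linarith
  have hLone : 1 ≤ L := by linarith
  have hl1 : 1 ≤ Real.log L := by
    rw [Real.le_log_iff_exp_le hL0]
    exact hL1
  have hlk : 1 ≤ Real.log L ^ k3 := one_le_pow₀ hl1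
  have hXL : 0 < X / L := by positivity
  rcases le_or_gt X0 X with hlarge | hsmall
  swap
  · have h4 := h2 K hn X (by linarith) X hXp le_rfl E hE
    rw [← hL] at h4
    have h5 : L ≤ Real.log X0 := Real.log_le_log hXp hsmall.le
    have h6 : c2 * X * L ^ k2 ≤ c2 * Real.log X0 ^ (k2 + 1) * (X / L) := by
      have h7 : L ^ (k2 + 1) ≤ Real.log X0 ^ (k2 + 1) := pow_le_pow_left₀ hL0.le h5 _
      have h8 : c2 * X * L ^ k2 = c2 * L ^ (k2 + 1) * (X / L) := by
        rw [pow_succ]; field_simp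
      rw [h8]
      gcongr
    calc (E.card : ℝ) ≤ c2 * X * L ^ k2 := h4
      _ ≤ c2 * Real.log X0 ^ (k2 + 1) * (X / L) := h6
      _ ≤ (c1 + c2 + c3 + c2 * Real.log X0 ^ (k2 + 1)) * (X / L) :=
          mul_le_mul_of_nonneg_right (by linarith) hXL.le
      _ ≤ (c1 + c2 + c3 + c2 * Real.log X0 ^ (k2 + 1)) * (X / L) * Real.log L ^ k3 :=
          le_mul_of_one_le_right (by positivity) hlk
      _ = _ := by ring
  set Y : ℝ := L ^ m with hY
  have hY1 : 1 ≤ Y := one_le_pow₀ hLone
  have hY0 : 0 < Y := by linarith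
  set Z : ℝ := X / L ^ (k2 + 1) with hZ
  have hZ0 : 0 < Z := by positivity
  have hZX : Z ≤ X := div_le_self hXp.le (one_le_pow₀ hLone)
  set E1 := E.filter fun x => Splits Y 7 (sp x) with hE1
  set E' := E.filter fun x => ¬ Splits Y 7 (sp x) with hE'
  set E2 := E'.filter fun x => nn (sp x) ≤ Z with hE2
  set E3 := E'.filter fun x => ¬ nn (sp x) ≤ Z with hE3
  have hcard : (E.card : ℝ) = E1.card + (E2.card + E3.card) := by
    have a1 := Finset.card_filter_add_card_filter_not (s := E) (fun x => Splits Y 7 (sp x))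
    have a2 := Finset.card_filter_add_card_filter_not (s := E') (fun x => nn (sp x) ≤ Z)
    have a3 : E.card = E1.card + (E2.card + E3.card) := by
      rw [hE2, hE3, a2, hE1, hE', a1]
    exact_mod_cast a3
  have b1 : (E1.card : ℝ) ≤ c1 * (X / L) := by
    have h4 := h1 K hn X (by linarith) Y hY0 E1 (by
      intro x hx
      obtain ⟨hx1, hx2⟩ := Finset.mem_filter.1 hx
      exact ⟨(hE x hx1).1, (hE x hx1).2, hx2⟩)
    refine h4.trans (le_of_eq ?_)
    rw [pow_one, hY, hm, pow_succ, ← hL]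
    field_simp
  have b2 : (E2.card : ℝ) ≤ c2 * (X / L) := by
    have h4 := h2 K hn X (by linarith) Z hZ0 hZX E2 (by
      intro x hx
      obtain ⟨hx1, hx2⟩ := Finset.mem_filter.1 hx
      obtain ⟨hx3, _⟩ := Finset.mem_filter.1 hx1
      exact ⟨(hE x hx3).1, hx2⟩)
    refine h4.trans (le_of_eq ?_)
    rw [hZ, pow_succ, ← hL]
    field_simp
  have hex : ∀ x : K, ∃ (b : Finset (Pr K)) (q : Pr K), x ∈ E3 → b ⊆ sp x ∧ b.card + 1 ≤ 7 ∧
      nn (sp x \ b) ≤ Y ^ (2 * 7) ∧ q ∈ b ∧ X ^ ((1 : ℝ) / 12) ≤ Nv q := by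
    intro x
    by_cases hx : x ∈ E3
    swap
    · obtain ⟨p, hp, hpp⟩ := Ring.not_isField_iff_exists_prime.1 (RingOfIntegers.not_isField K)
      exact ⟨∅, ⟨p, hpp, hp⟩, fun h => absurd h hx⟩
    obtain ⟨hx1, hx2⟩ := Finset.mem_filter.1 hx
    obtain ⟨hx3, hx4⟩ := Finset.mem_filter.1 hx1
    rcases split_or hY1 7 (sp x) with h | ⟨b, hb1, hb2, hb3⟩
    · exact absurd h hx4
    have hq : ∃ q ∈ b, X ^ ((1 : ℝ) / 12) ≤ Nv q := by
      by_contra hcon
      push Not at hcon
      have hb4 : nn b ≤ X ^ ((1 : ℝ) / 2) := by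
        have hone : 1 ≤ X ^ ((1 : ℝ) / 12) := Real.one_le_rpow (by linarith) (by norm_num)
        calc nn b ≤ ∏ _v ∈ b, X ^ ((1 : ℝ) / 12) :=
              Finset.prod_le_prod (fun v _ => (Nv_pos v).le) fun v hv => (hcon v hv).le
          _ = (X ^ ((1 : ℝ) / 12)) ^ b.card := by rw [Finset.prod_const]
          _ ≤ (X ^ ((1 : ℝ) / 12)) ^ 6 := pow_le_pow_right₀ hone (by omega)
          _ = X ^ ((1 : ℝ) / 2) := by
              rw [← Real.rpow_natCast, ← Real.rpow_mul hXp.le]
              norm_num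
      have h5 := nn_sdiff hb1
      have h6 : nn (sp x) ≤ L ^ (14 * m) * X ^ ((1 : ℝ) / 2) := by
        rw [← h5]
        refine mul_le_mul ?_ hb4 (nn_pos b).le (by positivity)
        refine hb3.trans (le_of_eq ?_)
        rw [hY, ← pow_mul]
        congr 1
        ring
      have h7 := hX0' X hlarge
      rw [pow_add, ← hL] at h7
      rw [not_le, hZ, div_lt_iff₀ (by positivity)] at hx2
      have h8 : nn (sp x) * L ^ (k2 + 1) ≤ L ^ (k2 + 1) * L ^ (14 * m) * X ^ ((1 : ℝ) / 2) := by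
        have := mul_le_mul_of_nonneg_right h6 (pow_nonneg hL0.le (k2 + 1))
        linarith
      linarith
    obtain ⟨q, hq1, hq2⟩ := hq
    exact ⟨b, q, fun _ => ⟨hb1, hb2, hb3, hq1, hq2⟩⟩
  choose b q hbq using hex
  have b3 : (E3.card : ℝ) ≤ c3 * X / L * Real.log L ^ k3 := by
    refine h3 K hn X hX E3 (fun x => sp x \ b x) (fun x => (b x).erase (q x)) q ?_
    intro x hx
    obtain ⟨hx1, hx2⟩ := Finset.mem_filter.1 hx
    obtain ⟨hx3, hx4⟩ := Finset.mem_filter.1 hx1
    obtain ⟨d1, d2, d3, d4, d5⟩ := hbq x hx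
    refine ⟨(hE x hx3).1, (hE x hx3).2, ?_, ?_, ?_, ?_, ?_, d5⟩
    · ext v
      simp only [Finset.mem_insert, Finset.mem_union, Finset.mem_sdiff, Finset.mem_erase]
      constructor
      · intro hv
        by_cases hvq : v = q x
        · exact Or.inl hvq
        · by_cases hvb : v ∈ b x
          · exact Or.inr (Or.inr ⟨hvq, hvb⟩)
          · exact Or.inr (Or.inl ⟨hv, hvb⟩)
      · rintro (rfl | h | h)
        · exact d1 d4
        · exact h.1
        · exact d1 h.2
    · simp only [Finset.mem_union, Finset.mem_sdiff, Finset.mem_erase, not_or, not_and]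
      exact ⟨fun _ h => h d4, fun h _ => h rfl⟩
    · rw [Finset.disjoint_left]
      intro v hv hv'
      exact (Finset.mem_sdiff.1 hv).2 (Finset.mem_erase.1 hv').2
    · rw [Finset.card_erase_of_mem d4]
      omega
    · refine d3.trans (le_of_eq ?_)
      rw [hY, ← pow_mul]
      congr 1
      ring
  rw [hcard]
  have b1' : c1 * (X / L) ≤ c1 * (X / L) * Real.log L ^ k3 :=
    le_mul_of_one_le_right (by positivity) hlk
  have b2' : c2 * (X / L) ≤ c2 * (X / L) * Real.log L ^ k3 :=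
    le_mul_of_one_le_right (by positivity) hlk
  have b4 : 0 ≤ c2 * Real.log X0 ^ (k2 + 1) * (X / L) * Real.log L ^ k3 := by positivity
  have e1 : (c1 + c2 + c3 + c2 * Real.log X0 ^ (k2 + 1)) * X / L * Real.log L ^ k3 =
      c1 * (X / L) * Real.log L ^ k3 + c2 * (X / L) * Real.log L ^ k3 +
      c3 * X / L * Real.log L ^ k3 + c2 * Real.log X0 ^ (k2 + 1) * (X / L) * Real.log L ^ k3 := by
    ring
  rw [e1]
  linarith

end Pool.Agent.TH876.Loc
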