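import Mathlib
import Pool.Agent.TH876.Main

set_option autoImplicit false

/-!
# From the affine coordinate to projective points
-/

namespace Pool.Agent.TH876.Loc

open NumberField IsDedekindDomain Finset Pool.Agent.H691R3

variable {K : Type} [Field K] [NumberField K]

theorem pt_of_triple {x : Fin 3 → K} (hs : x 0 + x 1 + x 2 = 0) (hne : x 0 * x 1 * x 2 ≠ 0) :
    Pt (x 0 / x 1) := by
  have h0 : x 0 ≠ 0 := fun h => hne (by rw [h]; ring)
  have h1 : x 1 ≠ 0 := fun h => hne (by rw [h]; ring)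
  have h2 : x 2 ≠ 0 := fun h => hne (by rw [h]; ring)
  refine ⟨div_ne_zero h0 h1, ?_⟩
  intro h
  apply h2
  have : x 0 + x 1 = 0 := by
    field_simp at h
    linear_combination h
  linear_combination hs - this

theorem sp_of_triple {x : Fin 3 → K} (hs : x 0 + x 1 + x 2 = 0) (hne : x 0 * x 1 * x 2 ≠ 0)
    (v : Pr K) : v ∈ sp (x 0 / x 1) ↔
      ¬ (FinitePlace.mk v (x 0) = FinitePlace.mk v (x 1) ∧
        FinitePlace.mk v (x 1) = FinitePlace.mk v (x 2)) := by
  have h1 : x 1 ≠ 0 := fun h => hne (by rw [h]; ring)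
  have hv1 : fv v (x 1) ≠ 0 := ((fv v).pos h1).ne'
  rw [mem_sp (pt_of_triple hs hne), map_div₀, div_eq_one_iff_eq hv1]
  have h3 : x 0 / x 1 + 1 = -(x 2 / x 1) := by
    field_simp
    linear_combination hs
  rw [h3, (fv v).map_neg, map_div₀, div_eq_one_iff_eq hv1]
  show ¬ (fv v (x 0) = fv v (x 1) ∧ fv v (x 2) = fv v (x 1)) ↔
    ¬ (fv v (x 0) = fv v (x 1) ∧ fv v (x 1) = fv v (x 2))
  rw [eq_comm (a := fv v (x 2))]

/-- transfer of a counting bound -/
theorem transfer (P : Set (Projectivization K (Fin 3 → K))) (Q : K → Prop) (B : ℝ) (hB0 : 0 ≤ B)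
    (h : ∀ p ∈ P, ∃ (x : Fin 3 → K) (hx : x ≠ 0), p = Projectivization.mk K x hx ∧
      x 0 + x 1 + x 2 = 0 ∧ x 0 * x 1 * x 2 ≠ 0 ∧ Q (x 0 / x 1))
    (hB : ∀ E : Finset K, (∀ x ∈ E, Pt x ∧ Q x) → (E.card : ℝ) ≤ B) :
    P.Finite ∧ (P.ncard : ℝ) ≤ B := by
  classical
  have hex : ∀ p : Projectivization K (Fin 3 → K), ∃ x : Fin 3 → K, p ∈ P →
      ∃ hx : x ≠ 0, p = Projectivization.mk K x hx ∧ x 0 + x 1 + x 2 = 0 ∧
        x 0 * x 1 * x 2 ≠ 0 ∧ Q (x 0 / x 1) := by
    intro p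
    by_cases hp : p ∈ P
    · obtain ⟨x, hx, h⟩ := h p hp
      exact ⟨x, fun _ => ⟨hx, h⟩⟩
    · exact ⟨0, fun h => absurd h hp⟩
  choose f hf using hex
  have hbound : ∀ G : Finset (Projectivization K (Fin 3 → K)), (G : Set _) ⊆ P →
      (G.card : ℝ) ≤ B := by
    intro G hG
    have hinj : Set.InjOn (fun p => f p 0 / f p 1) G := by
      intro p hp q hq hpq
      obtain ⟨hx, e1, hs, hne, _⟩ := hf p (hG hp)
      obtain ⟨hy, e2, hs', hne', _⟩ := hf q (hG hq)
      have h1 : f p 1 ≠ 0 := fun h => hne (by rw [h]; ring)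
      have h1' : f q 1 ≠ 0 := fun h => hne' (by rw [h]; ring)
      simp only at hpq
      rw [e1, e2, Projectivization.mk_eq_mk_iff']
      refine ⟨f p 1 / f q 1, ?_⟩
      have g0 : f p 0 = f p 1 / f q 1 * f q 0 := by
        rw [div_eq_div_iff h1 h1'] at hpq
        field_simp
        linear_combination hpq
      have g1 : f p 1 = f p 1 / f q 1 * f q 1 := by field_simp
      funext i
      rw [Pi.smul_apply, smul_eq_mul]
      fin_cases i
      · exact g0.symm
      · exact g1.symm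
      · have g2 : f p 2 = -(f p 0 + f p 1) := by linear_combination hs
        have g2' : f q 2 = -(f q 0 + f q 1) := by linear_combination hs'
        show f p 1 / f q 1 * f q 2 = f p 2
        rw [g2, g2']
        linear_combination g0 + g1
    rw [← Finset.card_image_of_injOn hinj]
    refine hB _ ?_
    intro x hx
    obtain ⟨p, hp, rfl⟩ := Finset.mem_image.mp hx
    obtain ⟨_, _, hs, hne, hQ⟩ := hf p (hG hp)
    exact ⟨pt_of_triple hs hne, hQ⟩
  have hfin : P.Finite := by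
    by_contra hinf
    obtain ⟨G, hGV, hGc⟩ := Set.Infinite.exists_subset_card_eq hinf (⌊B⌋₊ + 1)
    have h1 := hbound G hGV
    have h2 := Nat.lt_floor_add_one B
    rw [hGc] at h1
    push_cast at h1
    linarith
  refine ⟨hfin, ?_⟩
  rw [Set.ncard_eq_toFinset_card _ hfin]
  exact hbound hfin.toFinset (by rw [Set.Finite.coe_toFinset])

/-- the norm of the radical -/
theorem exp_log_nn {x : K} {I : Set (Pr K)} (hI : ∀ v, v ∈ sp x ↔ v ∈ I) {d : ℝ} (hd : d ≠ 0) :
    Real.exp (d * ((∑ᶠ v ∈ I, Real.log (Ideal.absNorm v.asIdeal : ℝ)) / d)) = nn (sp x) := by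
  have h1 : ∑ᶠ v ∈ I, Real.log (Ideal.absNorm v.asIdeal : ℝ) =
      ∑ v ∈ sp x, Real.log (Ideal.absNorm v.asIdeal : ℝ) := by
    have hI' : I = ((sp x : Finset (Pr K)) : Set (Pr K)) := by
      ext v
      rw [Finset.mem_coe, hI v]
    rw [hI', finsum_mem_coe_finset]
  rw [h1, mul_div_cancel₀ _ hd, Real.exp_sum]
  unfold nn
  refine Finset.prod_congr rfl fun v _ => ?_
  rw [Real.exp_log]
  · rfl
  · exact_mod_cast Nat.pos_of_ne_zero (absNorm_ne_zero v)

end Pool.Agent.TH876.Loc
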